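import Pool.Agent.D0H74.DGR.Cycle

/-!
# The groups in `DGR` but not in `BGR` involve `C₃`, `C₄` or `C₅`
-/

set_option autoImplicit false

universe u

namespace Pool.Agent.Results.MP_c04211_al.CentralizingCycles

open Pool.Agent.D0H74.DGR MulAction

/-- The cycle of `f` through `u`. -/
def cyc {V : Type u} (f : Equiv.Perm V) (u : V) : Set V := {v | ∃ j : ℕ, (f ^ j) u = v}

/-- The group induced by the setwise stabilizer of `B` in `A` on the set `B` is the set of all
restrictions to `B` of powers of `f`. -/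
def InducesPowers {V : Type u} (A : Subgroup (Equiv.Perm V)) (f : Equiv.Perm V) (B : Set V) :
    Prop :=
  (∀ a ∈ A, a '' B = B → ∃ k : ℕ, ∀ v ∈ B, a v = (f ^ k) v) ∧
    ∀ k : ℕ, ∃ a ∈ A, a '' B = B ∧ ∀ v ∈ B, a v = (f ^ k) v

/-- Let `A` be a permutation group on a finite set `V` (not necessarily transitive) which is the
automorphism group of a coloured digraph but not of a coloured hypergraph. Then there are an orbit
`O = A x` of `A`, a number `m ∈ {3, 4, 5}` and a permutation `f` of `V` which commutes with all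
elements of `A`, fixes the points outside `O`, and has only cycles of length `m` on `O`; the cycles
of `f` on `O` are blocks of `A`, and the group induced on each of them by its setwise stabilizer in
`A` consists of the restrictions of the powers of `f`, so it is the cyclic group of order `m`
generated by an `m`-cycle on a set of `m` points. -/
theorem result (V : Type u) [Finite V] (A : Subgroup (Equiv.Perm V)) (hA : IsDGR A)
    (hB : ¬ IsBGR A) :
    ∃ (x : V) (f : Equiv.Perm V) (m : ℕ), (m = 3 ∨ m = 4 ∨ m = 5) ∧ (∀ a ∈ A, a * f = f * a) ∧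
      (∀ u, (¬ ∃ a ∈ A, a x = u) → f u = u) ∧
      (∀ u, (∃ a ∈ A, a x = u) → Function.minimalPeriod f u = m ∧ (cyc f u).ncard = m ∧
        IsBlock A (cyc f u) ∧ InducesPowers A f (cyc f u)) := by
  obtain ⟨x, f, m, hm, hf, h1, h2⟩ := structure_theorem hA hB
  refine ⟨x, f, m, hm, hf, h2, fun u hu => ⟨(h1 u hu).1, ?_, ?_, ?_⟩⟩
  · -- the number of points of a cycle
    have h3 : cyc f u = (fun j : ℕ => (f ^ j) u) '' (Finset.range m : Set ℕ) := by
      ext v
      constructor
      · rintro ⟨j, rfl⟩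
        refine ⟨j % m, by simpa using Nat.mod_lt _ (by omega), ?_⟩
        have h4 := Function.iterate_mod_minimalPeriod_eq (f := f) (x := u) (n := j)
        rw [(h1 u hu).1] at h4
        exact h4
      · rintro ⟨j, -, rfl⟩
        exact ⟨j, rfl⟩
    rw [h3, Set.InjOn.ncard_image, Set.ncard_coe_finset, Finset.card_range]
    intro i hi j hj hij
    have h4 : f^[i] u = f^[j] u := hij
    rw [Function.iterate_eq_iterate_iff_of_lt_minimalPeriod] at h4
    · exact h4
    · rw [(h1 u hu).1]; simpa using hi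
    · rw [(h1 u hu).1]; simpa using hj
  · rw [isBlock_iff_smul_eq_of_mem]
    rintro ⟨a, ha⟩ v ⟨j, rfl⟩ ⟨i, hi⟩
    have hi' : (f ^ i) u = a ((f ^ j) u) := hi
    have hper : ∀ n, (f ^ n) u = (f ^ (n % m)) u := by
      intro n
      have h4 := Function.iterate_mod_minimalPeriod_eq (f := f) (x := u) (n := n)
      rw [(h1 u hu).1] at h4
      exact h4.symm
    have hau : a u = (f ^ (i + (m - 1) * j)) u := by
      apply (f ^ j).injective
      rw [← comm_pow (hf a ha), ← hi', ← Equiv.Perm.mul_apply, ← pow_add, hper i,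
        hper (j + (i + (m - 1) * j))]
      congr 2
      obtain ⟨n, rfl⟩ : ∃ n, m = n + 1 := ⟨m - 1, by omega⟩
      have e : j + (i + (n + 1 - 1) * j) = i + (n + 1) * j := by
        simp only [Nat.add_sub_cancel]; ring
      rw [e, Nat.add_mul_mod_self_left]
    ext v
    constructor
    · rintro ⟨_, ⟨r, rfl⟩, rfl⟩
      refine ⟨r + (i + (m - 1) * j), ?_⟩
      change _ = a ((f ^ r) u)
      rw [comm_pow (hf a ha), hau, ← Equiv.Perm.mul_apply, ← pow_add]
    · rintro ⟨r, rfl⟩
      refine ⟨(f ^ (r + (m - 1) * (i + (m - 1) * j))) u, ⟨_, rfl⟩, ?_⟩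
      change a ((f ^ _) u) = _
      rw [comm_pow (hf a ha), hau, ← Equiv.Perm.mul_apply, ← pow_add, hper, hper r]
      congr 2
      obtain ⟨n, rfl⟩ : ∃ n, m = n + 1 := ⟨m - 1, by omega⟩
      have e : r + (n + 1 - 1) * (i + (n + 1 - 1) * j) + (i + (n + 1 - 1) * j) =
          r + (n + 1) * (i + n * j) := by
        simp only [Nat.add_sub_cancel]; ring
      rw [e, Nat.add_mul_mod_self_left]
  · constructor
    · intro a ha hau
      have h3 : a u ∈ cyc f u := by
        rw [← hau]
        exact ⟨u, ⟨0, rfl⟩, rfl⟩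
      obtain ⟨k, hk⟩ := h3
      refine ⟨k, ?_⟩
      rintro v ⟨j, rfl⟩
      rw [comm_pow (hf a ha), ← hk, ← Equiv.Perm.mul_apply, ← Equiv.Perm.mul_apply, ← pow_add,
        ← pow_add, add_comm]
    · obtain ⟨c, hc, hcu⟩ := (h1 u hu).2
      have h3 : ∀ v ∈ cyc f u, c v = f v := by
        rintro v ⟨j, rfl⟩
        rw [comm_pow (hf c hc), hcu]
        rw [← Equiv.Perm.mul_apply, ← Equiv.Perm.mul_apply, ← pow_succ, ← pow_succ']
      have h4 : ∀ v ∈ cyc f u, f v ∈ cyc f u := by
        rintro v ⟨j, rfl⟩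
        exact ⟨j + 1, by rw [pow_succ']; rfl⟩
      have h5 : ∀ k : ℕ, ∀ v ∈ cyc f u, (c ^ k) v = (f ^ k) v ∧ (f ^ k) v ∈ cyc f u := by
        intro k
        induction k with
        | zero => intro v hv; exact ⟨rfl, hv⟩
        | succ k ih =>
          intro v hv
          obtain ⟨i1, i2⟩ := ih v hv
          rw [pow_succ', pow_succ', Equiv.Perm.mul_apply, Equiv.Perm.mul_apply, i1]
          exact ⟨h3 _ i2, h4 _ i2⟩
      intro k
      refine ⟨c ^ k, A.pow_mem hc k, ?_, fun v hv => (h5 k v hv).1⟩
      ext v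
      constructor
      · rintro ⟨w, hw, rfl⟩
        rw [(h5 k w hw).1]
        exact (h5 k w hw).2
      · rintro ⟨j, rfl⟩
        have h6 : (f ^ (j + (m - 1) * k)) u ∈ cyc f u := ⟨_, rfl⟩
        refine ⟨_, h6, ?_⟩
        rw [(h5 k _ h6).1, ← Equiv.Perm.mul_apply, ← pow_add]
        have hper : ∀ n, (f ^ n) u = (f ^ (n % m)) u := by
          intro n
          have h4 := Function.iterate_mod_minimalPeriod_eq (f := f) (x := u) (n := n)
          rw [(h1 u hu).1] at h4
          exact h4.symm
        rw [hper, hper j]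
        congr 2
        obtain ⟨n, rfl⟩ : ∃ n, m = n + 1 := ⟨m - 1, by omega⟩
        have e : k + (j + (n + 1 - 1) * k) = j + (n + 1) * k := by
          simp only [Nat.add_sub_cancel]; ring
        rw [e, Nat.add_mul_mod_self_left]

end Pool.Agent.Results.MP_c04211_al.CentralizingCycles
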