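import Pool.Agent.D0H74.DGR.Cycle

/-!
# The primitive groups in `DGR` but not in `BGR` are `C₃` and `C₅`
-/

set_option autoImplicit false

universe u

namespace Pool.Agent.Results.MP_c04211_al.PrimitiveClassification

open Pool.Agent.D0H74.DGR MulAction

/-- Every point is in the `f`-cycle of `x`. -/
theorem eq_pow {V : Type u} [Finite V] {f : Equiv.Perm V} (hf : f.IsCycleOn Set.univ) (x y : V) :
    ∃ k : ℕ, (f ^ k) x = y := by
  have h := hf.2 (Set.mem_univ x) (Set.mem_univ y)
  obtain ⟨k, -, hk⟩ := h.exists_pow_eq'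
  exact ⟨k, hk⟩

theorem mem_zpowers_of_comm {V : Type u} [Finite V] [Nonempty V] {f : Equiv.Perm V}
    (hf : f.IsCycleOn Set.univ) {g : Equiv.Perm V} (h : g * f = f * g) :
    g ∈ Subgroup.zpowers f := by
  obtain ⟨x⟩ := ‹Nonempty V›
  obtain ⟨k, hk⟩ := eq_pow hf x (g x)
  refine ⟨k, ?_⟩
  ext y
  obtain ⟨j, rfl⟩ := eq_pow hf x y
  rw [comm_pow h j, ← hk]
  change (f ^ (k : ℤ)) ((f ^ j) x) = _
  rw [zpow_natCast, ← Equiv.Perm.mul_apply, ← Equiv.Perm.mul_apply, ← pow_add, ← pow_add,
    add_comm]

theorem comm_of_mem_zpowers {V : Type u} {f g : Equiv.Perm V} (h : g ∈ Subgroup.zpowers f) :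
    g * f = f * g := by
  obtain ⟨k, rfl⟩ := h
  exact (Commute.refl f).zpow_left k

/-- The forward direction. -/
theorem forward {V : Type u} [Finite V] {A : Subgroup (Equiv.Perm V)}
    (hP : IsPreprimitive A V) (hA : IsDGR A) (hB : ¬ IsBGR A) :
    (Nat.card V = 3 ∨ Nat.card V = 5) ∧
      ∃ f : Equiv.Perm V, f.IsCycleOn Set.univ ∧ A = Subgroup.zpowers f := by
  obtain ⟨x, f, m, hm, hf, h1, -⟩ := structure_theorem hA hB
  have htr : ∀ u, ∃ a ∈ A, a x = u := by
    intro u
    obtain ⟨a, ha⟩ := MulAction.exists_smul_eq A x u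
    exact ⟨a, a.2, ha⟩
  have hmp : ∀ u, Function.minimalPeriod f u = m := fun u => (h1 u (htr u)).1
  -- the sets `{f^(jk) x : j ∈ ℕ}` are blocks
  have hblock : ∀ k : ℕ, IsBlock A {u | ∃ j : ℕ, ((f ^ k) ^ j) x = u} := by
    intro k
    rw [isBlock_iff_smul_eq_of_mem]
    rintro ⟨a, ha⟩ u ⟨j, rfl⟩ ⟨i, hi⟩
    have hfm : f ^ m = 1 := by
      ext u
      have := Function.isPeriodicPt_minimalPeriod f u
      rw [hmp u] at this
      exact this
    have hcomm : ∀ (r : ℕ) (u : V), a ((f ^ r) u) = (f ^ r) (a u) := fun r u =>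
      comm_pow (hf a ha) r u
    have hfk : ∀ r : ℕ, (f ^ k) ^ r = f ^ (k * r) := fun r => (pow_mul f k r).symm
    have hi' : (f ^ (k * i)) x = (f ^ (k * j)) (a x) := by
      rw [← hcomm, ← hfk, ← hfk]
      exact hi
    have hax : a x = (f ^ (k * (i + (m - 1) * j))) x := by
      have e : k * (i + (m - 1) * j) = (m - 1) * (k * j) + k * i := by ring
      rw [e, pow_add, Equiv.Perm.mul_apply, hi', ← Equiv.Perm.mul_apply, ← pow_add]
      have e2 : (m - 1) * (k * j) + k * j = m * (k * j) := by
        obtain ⟨n, rfl⟩ : ∃ n, m = n + 1 := ⟨m - 1, by omega⟩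
        simp only [Nat.add_sub_cancel]; ring
      rw [e2, pow_mul, hfm, one_pow, Equiv.Perm.one_apply]
    ext u
    constructor
    · rintro ⟨_, ⟨r, rfl⟩, rfl⟩
      refine ⟨r + (i + (m - 1) * j), ?_⟩
      change _ = a (((f ^ k) ^ r) x)
      rw [hfk r, hcomm, hax, hfk, ← Equiv.Perm.mul_apply, ← pow_add, mul_add]
    · rintro ⟨r, rfl⟩
      refine ⟨((f ^ k) ^ (r + (m - 1) * (i + (m - 1) * j))) x, ⟨_, rfl⟩, ?_⟩
      change a (((f ^ k) ^ _) x) = _
      rw [hfk, hfk r, hcomm, hax, ← Equiv.Perm.mul_apply, ← pow_add]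
      have e : k * (r + (m - 1) * (i + (m - 1) * j)) + k * (i + (m - 1) * j) =
          k * r + m * (k * (i + (m - 1) * j)) := by
        obtain ⟨n, rfl⟩ : ∃ n, m = n + 1 := ⟨m - 1, by omega⟩
        simp only [Nat.add_sub_cancel]; ring
      rw [e, pow_add, pow_mul f m, hfm, one_pow, mul_one]
  have hmem : ∀ k : ℕ, (f ^ k) x ∈ {u | ∃ j : ℕ, ((f ^ k) ^ j) x = u} := fun k => ⟨1, by simp⟩
  have hmem0 : ∀ k : ℕ, x ∈ {u | ∃ j : ℕ, ((f ^ k) ^ j) x = u} := fun k => ⟨0, by simp⟩
  have hne : ∀ k : ℕ, 0 < k → k < m → (f ^ k) x ≠ x := by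
    intro k h0 hk h
    have h2 : Function.IsPeriodicPt f k x := h
    have h3 := h2.minimalPeriod_le h0
    rw [hmp x] at h3
    omega
  have huniv : ∀ k : ℕ, 0 < k → k < m → ∀ u, ∃ j : ℕ, ((f ^ k) ^ j) x = u := by
    intro k h0 hk
    rcases hP.isTrivialBlock_of_isBlock (hblock k) with h | h
    · exact absurd (h (hmem k) (hmem0 k)) (hne k h0 hk)
    · intro u
      have : u ∈ (Set.univ : Set V) := Set.mem_univ u
      rw [← h] at this
      exact this
  have hcyc : f.IsCycleOn Set.univ := by
    refine ⟨⟨Set.mapsTo_univ _ _, f.injective.injOn, fun u _ => ?_⟩, fun u _ v _ => ?_⟩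
    · obtain ⟨w, rfl⟩ := f.surjective u
      exact ⟨w, Set.mem_univ _, rfl⟩
    · obtain ⟨j, hj⟩ := huniv 1 one_pos (by omega) u
      obtain ⟨i, hi⟩ := huniv 1 one_pos (by omega) v
      rw [pow_one] at hi hj
      have e1 : f.SameCycle x u := ⟨j, by rw [zpow_natCast]; exact hj⟩
      have e2 : f.SameCycle x v := ⟨i, by rw [zpow_natCast]; exact hi⟩
      exact e1.symm.trans e2
  have : Nonempty V := ⟨x⟩
  have hcard : Nat.card V = m := by
    classical
    have := Fintype.ofFinite V
    have h2 : (Set.univ : Set V) = ((Finset.univ : Finset V) : Set V) := by simp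
    rw [h2] at hcyc
    have h3 : ∀ n : ℕ, (f ^ n) x = x ↔ (Finset.univ : Finset V).card ∣ n := fun n =>
      hcyc.pow_apply_eq (Finset.mem_univ x)
    rw [Nat.card_eq_fintype_card, ← Finset.card_univ]
    apply Nat.dvd_antisymm
    · rw [← h3]
      have h4 := Function.isPeriodicPt_minimalPeriod f x
      rw [hmp x] at h4
      exact h4
    · rw [← hmp x]
      exact Function.IsPeriodicPt.minimalPeriod_dvd ((h3 _).2 (dvd_refl _))
  refine ⟨?_, f, hcyc, ?_⟩
  · rw [hcard]
    rcases hm with rfl | rfl | rfl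
    · exact Or.inl rfl
    · exfalso
      -- the block `{x, f² x}`
      obtain ⟨j, hj⟩ := huniv 2 (by norm_num) (by norm_num) (f x)
      rw [← pow_mul] at hj
      obtain ⟨n, hn⟩ : ∃ n, 2 * j + 3 = n := ⟨_, rfl⟩
      have h4 : (f ^ (2 * j + 3)) x = x := by
        rw [add_comm, pow_add, Equiv.Perm.mul_apply, hj, ← Equiv.Perm.mul_apply, ← pow_succ]
        have h5 := Function.isPeriodicPt_minimalPeriod f x
        rw [hmp x] at h5
        exact h5
      have h5 : Function.minimalPeriod f x ∣ 2 * j + 3 :=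
        Function.IsPeriodicPt.minimalPeriod_dvd h4
      rw [hmp x] at h5
      omega
    · exact Or.inr rfl
  · apply le_antisymm
    · intro a ha
      exact mem_zpowers_of_comm hcyc (hf a ha)
    · rw [Subgroup.zpowers_le]
      obtain ⟨a, ha, hax⟩ := (h1 x (htr x)).2
      have h2 : a = f := by
        ext u
        obtain ⟨j, rfl⟩ := eq_pow hcyc x u
        rw [comm_pow (hf a ha) j, hax, ← Equiv.Perm.mul_apply, ← Equiv.Perm.mul_apply,
          (Commute.refl f).pow_left j]
      rw [← h2]
      exact ha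

/-- Negation maps every subset of `ℤ/3` or `ℤ/5` to a translate. -/
theorem neg_translate {n : ℕ} [NeZero n] (hn : n = 3 ∨ n = 5) (S : Set (ZMod n)) :
    ∃ t : ZMod n, (fun x => -x) '' S = (fun x => t + x) '' S := by
  classical
  have h3 : ∀ S : Finset (ZMod 3), ∃ t : ZMod 3, S.image (fun x => -x) = S.image (fun x => t + x) := by
    decide
  have h5 : ∀ S : Finset (ZMod 5), ∃ t : ZMod 5, S.image (fun x => -x) = S.image (fun x => t + x) := by
    decide
  have key : ∀ S : Finset (ZMod n), ∃ t : ZMod n,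
      S.image (fun x => -x) = S.image (fun x => t + x) := by
    rcases hn with rfl | rfl
    · exact h3
    · exact h5
  obtain ⟨T, rfl⟩ : ∃ T : Finset (ZMod n), S = T := ⟨(Set.toFinite S).toFinset, (Set.Finite.coe_toFinset _).symm⟩
  obtain ⟨t, ht⟩ := key T
  refine ⟨t, ?_⟩
  rw [← Finset.coe_image, ← Finset.coe_image, ht]

/-- The converse direction. -/
theorem backward {V : Type u} [Finite V] {n : ℕ} (hn : n = 3 ∨ n = 5) (hV : Nat.card V = n)
    {f : Equiv.Perm V} (hf : f.IsCycleOn Set.univ) :
    IsPreprimitive (Subgroup.zpowers f) V ∧ IsDGR (Subgroup.zpowers f) ∧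
      ¬ IsBGR (Subgroup.zpowers f) := by
  have hprime : Nat.Prime n := by rcases hn with rfl | rfl <;> norm_num
  have hNe : NeZero n := ⟨hprime.ne_zero⟩
  have hne : Nonempty V := by
    by_contra h
    rw [not_nonempty_iff] at h
    rw [Nat.card_of_isEmpty] at hV
    omega
  obtain ⟨x⟩ := id hne
  have hfn : ∀ u, (f ^ n) u = u := by
    classical
    have := Fintype.ofFinite V
    intro u
    have h2 : (Set.univ : Set V) = ((Finset.univ : Finset V) : Set V) := by simp
    rw [h2] at hf
    rw [← hV, Nat.card_eq_fintype_card, ← Finset.card_univ]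
    exact hf.pow_card_apply (Finset.mem_univ u)
  have hfn1 : f ^ n = 1 := Equiv.ext hfn
  -- the identification of `V` with `ℤ/n`
  let e : ZMod n → V := fun k => (f ^ k.val) x
  have he : ∀ N : ℕ, e (N : ZMod n) = (f ^ N) x := by
    intro N
    change (f ^ (N : ZMod n).val) x = _
    rw [ZMod.val_natCast]
    conv_rhs => rw [← Nat.mod_add_div N n, pow_add, pow_mul, hfn1, one_pow, mul_one]
  have hesurj : Function.Surjective e := by
    intro u
    obtain ⟨k, hk⟩ := eq_pow hf x u
    exact ⟨(k : ZMod n), (he k).trans hk⟩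
  have hebij : Function.Bijective e := by
    rw [Nat.bijective_iff_surjective_and_card]
    exact ⟨hesurj, by rw [Nat.card_zmod, hV]⟩
  have hadd : ∀ s t : ZMod n, e (t + s) = (f ^ t.val) (e s) := by
    intro s t
    have h1 : t + s = ((t.val + s.val : ℕ) : ZMod n) := by
      rw [Nat.cast_add, ZMod.natCast_zmod_val, ZMod.natCast_zmod_val]
    rw [h1, he, pow_add]
    rfl
  have he0 : e 0 = x := by
    have := he 0
    simpa using this
  have he1 : e 1 = f x := by
    have := he 1
    simpa using this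
  have hffix : ∀ u, f u ≠ u := by
    intro u hu
    obtain ⟨k, rfl⟩ := hesurj u
    have h1 : e (1 + k) = e k := by
      rw [hadd]
      have h2 : (1 : ZMod n).val = 1 := ZMod.val_one'' (by omega)
      rw [h2, pow_one]
      exact hu
    have h2 := hebij.1 h1
    have h3 : (1 : ZMod n) = 0 := by
      have := congrArg (fun z => z - k) h2
      simpa using this
    rcases hn with rfl | rfl <;> exact absurd h3 (by decide)
  refine ⟨?_, ?_, ?_⟩
  · have : IsPretransitive (Subgroup.zpowers f) V := by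
      constructor
      intro u v
      obtain ⟨k, hk⟩ := eq_pow hf u v
      exact ⟨⟨f ^ k, ⟨(k : ℤ), zpow_natCast f k⟩⟩, hk⟩
    exact IsPreprimitive.of_prime_card (hV ▸ hprime)
  · refine ⟨ULift.{u} Prop, fun u v => ULift.up (v = f u), fun σ => ⟨?_, ?_⟩⟩
    · intro hσ u v _
      have hc := comm_of_mem_zpowers hσ
      have hiff : (σ v = f (σ u)) ↔ (v = f u) := by
        constructor
        · intro h
          rw [← comm_ap hc] at h
          exact σ.injective h
        · rintro rfl
          exact comm_ap hc u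
      exact congrArg ULift.up (propext hiff)
    · intro h
      apply mem_zpowers_of_comm hf
      ext u
      have h1 := congrArg ULift.down (h u (f u) (hffix u).symm)
      have h2 : (σ (f u) = f (σ u)) = (f u = f u) := h1
      exact h2.mpr rfl
  · rintro ⟨C, h, hh⟩
    let E : ZMod n ≃ V := Equiv.ofBijective e hebij
    have hE : ∀ k, E k = e k := fun k => rfl
    let b : Equiv.Perm V := (E.symm.trans (Equiv.neg (ZMod n))).trans E
    have hbe : ∀ k, b (e k) = e (-k) := by
      intro k
      change E (-(E.symm (E k))) = e (-k)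
      rw [Equiv.symm_apply_apply]
      rfl
    have hb : b ∈ Subgroup.zpowers f := by
      rw [hh]
      intro U
      obtain ⟨S, rfl⟩ : ∃ S : Set (ZMod n), U = e '' S :=
        ⟨e ⁻¹' U, (Set.image_preimage_eq U hesurj).symm⟩
      obtain ⟨t, ht⟩ := neg_translate hn S
      have h1 : b '' (e '' S) = (f ^ t.val) '' (e '' S) := by
        have h2 : b '' (e '' S) = e '' ((fun x => -x) '' S) := by
          rw [← Set.image_comp, ← Set.image_comp]
          apply Set.image_congr
          intro k _
          exact hbe k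
        have h3 : (f ^ t.val) '' (e '' S) = e '' ((fun x => t + x) '' S) := by
          rw [← Set.image_comp, ← Set.image_comp]
          apply Set.image_congr
          intro k _
          exact (hadd k t).symm
        rw [h2, h3, ht]
      rw [h1]
      exact (hh (f ^ t.val)).1 ⟨(t.val : ℤ), zpow_natCast f _⟩ _
    have hc := comm_of_mem_zpowers hb
    have h1 : b (f x) = f (b x) := comm_ap hc x
    have h2 : b x = x := by
      rw [← he0, hbe, neg_zero]
    rw [h2, ← he1, hbe] at h1
    have h3 := hebij.1 h1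
    rcases hn with rfl | rfl <;> exact absurd h3 (by decide)

/-- **Answer to Q1 (negated form).** A permutation group `A` on a finite set `V` is primitive and
in `DGR` but not in `BGR` if and only if `V` has three or five points and `A` is the cyclic group
generated by a permutation which is a single cycle on `V`, that is, `A` is `C₃` or `C₅`. -/
theorem result (V : Type u) [Finite V] (A : Subgroup (Equiv.Perm V)) :
    (IsPreprimitive A V ∧ IsDGR A ∧ ¬ IsBGR A) ↔
      (Nat.card V = 3 ∨ Nat.card V = 5) ∧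
        ∃ f : Equiv.Perm V, f.IsCycleOn Set.univ ∧ A = Subgroup.zpowers f := by
  constructor
  · rintro ⟨h1, h2, h3⟩
    exact forward h1 h2 h3
  · rintro ⟨hV, f, hf, rfl⟩
    exact backward hV rfl hf

end Pool.Agent.Results.MP_c04211_al.PrimitiveClassification
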